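import Pool.Agent.Helper75.PY.Stmts

set_option autoImplicit false

universe u

open Module TensorProduct

namespace Pool.Agent.Helper75.PY

open Pool.Agent.Helper75.PX

theorem sh3_cube {K A : Type*} [Field K] [Ring A] [Algebra K A] (X j : A) (a c x : K)
    (h3 : (3 : K) = 0) (h : D3a X j a c) :
    (X + x • j) * (X + x • j) * (X + x • j) = X + x • j + (a + c * x ^ 3) • (1 : A) := by
  have h2 : j * X = X * j + j := by rw [h.hjx, add_mul, one_mul]
  have hX : X * (X * X) = X + a • (1 : A) := by
    rw [← mul_assoc, h.hx, Algebra.algebraMap_eq_smul_one]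
  have hj : j * (j * j) = c • (1 : A) := by
    rw [← mul_assoc, h.hj, Algebra.algebraMap_eq_smul_one]
  have e1 : X * (j * X) = X * (X * j) + X * j := by rw [h2, mul_add]
  have e2 : j * (X * X) = X * (X * j) + (2 : K) • (X * j) + j := by
    rw [← mul_assoc, h2, add_mul, h2, mul_assoc, h2, mul_add]
    module
  have e3 : j * (X * j) = X * (j * j) + j * j := by
    rw [← mul_assoc, h2, add_mul, mul_assoc]
  have e4 : j * (j * X) = X * (j * j) + (2 : K) • (j * j) := by
    rw [h2, mul_add, e3]
    module
  have e5 : (X + x • j) * (X + x • j) * (X + x • j) = X * (X * X) +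
      x • (X * (X * j) + X * (j * X) + j * (X * X)) +
      (x * x) • (X * (j * j) + j * (X * j) + j * (j * X)) + (x * x * x) • (j * (j * j)) := by
    simp only [add_mul, mul_add, smul_mul_assoc, mul_smul_comm, smul_smul, mul_assoc, smul_add]
    module
  rw [e5, e1, e2, e3, e4, hX, hj]
  have e6 : X + a • (1 : A) + x • (X * (X * j) + (X * (X * j) + X * j) +
      (X * (X * j) + (2 : K) • (X * j) + j)) + (x * x) • (X * (j * j) + (X * (j * j) + j * j) +
      (X * (j * j) + (2 : K) • (j * j))) + (x * x * x) • (c • (1 : A)) =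
      X + x • j + (a + c * x ^ 3) • (1 : A) + (3 : K) • (x • (X * (X * j)) + x • (X * j) +
      (x * x) • (X * (j * j)) + (x * x) • (j * j)) := by
    module
  rw [e6, h3, zero_smul, add_zero]

theorem st_SH3 : ST_SH3.{u} := by
  intro K A _ _ _ X j a c x y h3 h
  have hc := sh3_cube X j a c x h3 h
  refine ⟨?_, ?_, h.hj, h.c0⟩
  · set Z := X + x • j with hZ
    have e1 : (Z + y • (1 : A)) * (Z + y • (1 : A)) * (Z + y • (1 : A)) =
        Z * Z * Z + (3 : K) • (y • (Z * Z) + (y * y) • Z) + (y * y * y) • (1 : A) := by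
      simp only [add_mul, mul_add, smul_mul_assoc, mul_smul_comm, smul_smul, mul_assoc, smul_add,
        mul_one, one_mul]
      module
    rw [e1, h3, zero_smul, add_zero, hc, Algebra.algebraMap_eq_smul_one]
    module
  · rw [mul_add, mul_add, h.hjx, mul_smul_comm, mul_smul_comm, mul_one, add_mul, add_mul, add_mul,
      add_mul, smul_mul_assoc, smul_mul_assoc, one_mul]
    module

end Pool.Agent.Helper75.PY
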